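import Mathlib
import Pool.Agent.W39.GP.D

/-!
# The gap potential does not control the Hopf invariant for large gaps

MP_9fca84_an, Q1. Is `|deg_H f| ≤ C(n, ε) I_ε(f)^(1 + 1/(2n-1))` for every continuous map
`f : S^(2n-1) → S^n`, for every `n ≥ 2` and every `ε ∈ (0, 2)`? Here `I_ε(f)` is the integral of
`|y - z|^(-2(2n-1))` over all pairs `(y, z)` with `|f(y) - f(z)| ≥ ε`.

We show that the answer is negative: for `ε > 2 √((n+2)/(n+3))` every homotopy class of maps
`S^(2n-1) → S^n` contains maps `f` with arbitrarily small `I_ε(f)`. Hence no such inequality holds for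
any homotopy invariant which is not identically zero, in particular for the Hopf invariant, for all
even `n`.

Proof. Let `s_0, ..., s_(n+1) ≥ 0` be the barycentric coordinates of a point of `S^n` with respect to
the regular simplex with `n + 2` vertices `v_i ∈ S^n`, so that at least one `s_i` is zero. Compose a
given map `g` with the maps `x ↦ ∑ (c_i s_i)^p v_i / |∑ (c_i s_i)^p v_i|` of `S^n`, which are
homotopic to the identity and map every closed cell (`s_k = 0`) to itself. Two points of the same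
closed cell have a distance of at most `2 √((n+2)/(n+3))`. Therefore, uniformly in `p`, pairs of
points `(y, z)` with `|y - z|` small do not contribute to the integral, and for `p → ∞` almost every
point goes to a vertex, for generic weights `c_i` close to `1`.
-/

set_option autoImplicit false

open MeasureTheory
open scoped ENNReal

namespace Pool.Agent.Results.MP_9fca84_an.LargeGaps

/-- `Sphere k` is the unit sphere `S^k` of `ℝ^(k+1)`, with the Euclidean distance of `ℝ^(k+1)`. -/
abbrev Sphere (k : ℕ) : Type := Metric.sphere (0 : EuclideanSpace ℝ (Fin (k + 1))) 1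

/-- The surface measure of `S^k`. -/
noncomputable def area (k : ℕ) : Measure (Sphere k) :=
  (volume : Measure (EuclideanSpace ℝ (Fin (k + 1)))).toSphere

/-- The continuous maps `S^m → S^n`. -/
abbrev Maps (m n : ℕ) : Type := C(Sphere m, Sphere n)

/-- Homotopic maps. -/
def Hom {m n : ℕ} (f g : Maps m n) : Prop := ContinuousMap.Homotopic f g

/-- The pairs `(y, z)` with `|f(y) - f(z)| ≥ ε`. -/
def gapSet {m n : ℕ} (ε : ℝ) (f : Maps m n) : Set (Sphere m × Sphere m) :=
  {q | ε ≤ dist (f q.1) (f q.2)}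

/-- The gap potential `I_ε(f)` of a map `f : S^m → S^n`, with the kernel `|y - z|^(-2m)`. For
`m = 2n - 1` this is the gap potential of the problem. -/
noncomputable def gapPotential {m n : ℕ} (ε : ℝ) (f : Maps m n) : ℝ≥0∞ :=
  ∫⁻ q in gapSet ε f, ENNReal.ofReal (1 / dist q.1 q.2 ^ (2 * m)) ∂((area m).prod (area m))

/-- Every homotopy class of maps `S^(2n-1) → S^n` contains maps with arbitrarily small `I_ε`. -/
def SmallGaps (n : ℕ) (ε : ℝ) : Prop :=
  ∀ g : Maps (2 * n - 1) n, ∀ η : ℝ≥0∞, 0 < η → ∃ f : Maps (2 * n - 1) n,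
    Hom f g ∧ gapPotential ε f < η

/-- `H` is homotopy invariant and not identically zero. For even `n` the Hopf invariant has these
properties. -/
def IsInvariant (n : ℕ) (H : Maps (2 * n - 1) n → ℤ) : Prop :=
  (∀ f g, Hom f g → H f = H g) ∧ ∃ f, H f ≠ 0

/-- The inequality `|H(f)| ≤ C I_ε(f)^(1 + 1/(2n-1))` for all continuous `f : S^(2n-1) → S^n`. -/
def Estimate (n : ℕ) (ε C : ℝ) (H : Maps (2 * n - 1) n → ℤ) : Prop :=
  ∀ f, ((H f).natAbs : ℝ≥0∞) ≤ ENNReal.ofReal C * gapPotential ε f ^ (1 + 1 / (2 * (n : ℝ) - 1))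

/-- The number `2 √((n+2)/(n+3)) < 2`. -/
noncomputable def threshold (n : ℕ) : ℝ := 2 * √(((n : ℝ) + 2) / (n + 3))

/-- Let `n ≥ 2` and `ε > 2 √((n+2)/(n+3))`, a number smaller than `2`. Every continuous map
`g : S^(2n-1) → S^n` is homotopic to continuous maps `f` with `I_ε(f)` as small as we want. Hence for
every function `H` on the continuous maps `S^(2n-1) → S^n` with integer values which is homotopy
invariant and not identically zero, for instance the Hopf invariant if `n` is even, there is no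
constant `C` with `|H(f)| ≤ C I_ε(f)^(1 + 1/(2n-1))` for all `f`. -/
theorem result (n : ℕ) (hn : 2 ≤ n) : threshold n < 2 ∧ ∀ ε : ℝ, threshold n < ε →
    SmallGaps n ε ∧ ∀ H : Maps (2 * n - 1) n → ℤ, IsInvariant n H → ∀ C : ℝ, ¬ Estimate n ε C H := by
  have hn' : (2 : ℝ) ≤ n := by exact_mod_cast hn
  unfold threshold
  refine ⟨?_, fun ε hε => ?_⟩
  · have h1 : √(((n : ℝ) + 2) / (n + 3)) < 1 := by
      rw [Real.sqrt_lt' one_pos, one_pow, div_lt_one (by positivity)]
      linarith
    linarith
  have hε0 : 0 < ε := lt_of_le_of_lt (by positivity) hε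
  have hε2 : 4 * ((n : ℝ) + 2) / (n + 3) < ε ^ 2 := by
    have h1 : (2 * √(((n : ℝ) + 2) / (n + 3))) ^ 2 < ε ^ 2 :=
      pow_lt_pow_left₀ hε (by positivity) two_ne_zero
    rw [mul_pow, Real.sq_sqrt (by positivity)] at h1
    have e : 4 * ((n : ℝ) + 2) / (n + 3) = 2 ^ 2 * (((n : ℝ) + 2) / (n + 3)) := by ring
    rw [e]
    exact h1
  have key : SmallGaps n ε := by
    intro g η hη
    have : IsFiniteMeasure (area (2 * n - 1)) := by unfold area; infer_instance
    exact Pool.Agent.W39.GP.small_gap (area (2 * n - 1)) (by omega) g hε0 hε2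
      (2 * (2 * n - 1)) hη
  refine ⟨key, fun H hH C hE => ?_⟩
  obtain ⟨hH, g, hg⟩ := hH
  set δ : ℝ := 1 / (|C| + 2) with hδ
  have hδ0 : 0 < δ := by positivity
  obtain ⟨f, hf, hlt⟩ := key g (ENNReal.ofReal δ) (ENNReal.ofReal_pos.2 hδ0)
  have hHf : H f = H g := hH f g hf
  have hδ1 : δ ≤ 1 := by
    rw [hδ, div_le_one (by positivity)]
    linarith [abs_nonneg C]
  have he : 0 ≤ 1 / (2 * (n : ℝ) - 1) := by
    have : 0 < 2 * (n : ℝ) - 1 := by linarith
    positivity
  have hI1 : gapPotential ε f ≤ 1 := hlt.le.trans (by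
    rw [← ENNReal.ofReal_one]
    exact ENNReal.ofReal_le_ofReal hδ1)
  have hpow : gapPotential ε f ^ (1 + 1 / (2 * (n : ℝ) - 1)) ≤ gapPotential ε f := by
    have := ENNReal.rpow_le_rpow_of_exponent_ge hI1
      (show (1 : ℝ) ≤ 1 + 1 / (2 * (n : ℝ) - 1) by linarith)
    rwa [ENNReal.rpow_one] at this
  have h1 := hE f
  have h2 : ENNReal.ofReal C * gapPotential ε f ^ (1 + 1 / (2 * (n : ℝ) - 1)) < 1 := by
    calc ENNReal.ofReal C * gapPotential ε f ^ (1 + 1 / (2 * (n : ℝ) - 1))
        ≤ ENNReal.ofReal |C| * ENNReal.ofReal δ :=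
          mul_le_mul' (ENNReal.ofReal_le_ofReal (le_abs_self C)) (hpow.trans hlt.le)
      _ = ENNReal.ofReal (|C| * δ) := (ENNReal.ofReal_mul (abs_nonneg C)).symm
      _ < 1 := by
          rw [← ENNReal.ofReal_one, ENNReal.ofReal_lt_ofReal_iff one_pos, hδ, mul_one_div,
            div_lt_one (by positivity)]
          linarith
  have h3 : (1 : ℝ≥0∞) ≤ ((H f).natAbs : ℝ≥0∞) := by
    have h4 : 1 ≤ (H f).natAbs := by
      rw [hHf]
      exact Int.natAbs_pos.2 hg
    exact_mod_cast h4
  exact lt_irrefl _ (h3.trans_lt (h1.trans_lt h2))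

end Pool.Agent.Results.MP_9fca84_an.LargeGaps
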